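import Pool.Agent.TH561.FP.Main

/-!
# The Jones polynomial of knots with a free (or a mixed) symmetry

`Pool.Agent.TH561.PK.Defs` contains the definitions:

* `Elem M`: an elementary tangle on `M` vertical strands: a crossing of one of the two kinds between
  the places `i` and `i + 1`, or a hook (the two lower points at the places `i`, `i + 1` are joined by a
  cap, the two upper points by a cup);
* `annular w dir`: the closure in the annulus of the tangle `w 0, w 1, …, w (L-1)` (one above the
  other); its marked points are the points `(t, j)` (level `t ∈ ℤ/L`, place `j`);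
* `Oriented w dir`: `dir` is an orientation of the curves of this diagram (`dir (t, j) = true`: upwards);
* `linking dir t`: number of the strands directed upwards minus number of the strands directed
  downwards at the level `t`, which is the linking number with the axis of the annulus;
* `IsKnot D`: all marked points are on one curve.

`pw n w` (in `Pool.Agent.TH561.PK.Knot`) is the word `w` repeated `n` times, and `freeWord n w a` (in
`Pool.Agent.TH561.FP.Defs`) is `pw n w` followed by `a` full twists on all `M` strands, that is by the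
word `(σ_0 σ_1 ⋯ σ_{M-2})^M` repeated `|a|` times, with crossings of the kind given by the sign of `a`.
So `annular (freeWord n w a) dir` is a knot which is invariant under a rotation of order `n` around the
axis of the annulus combined with a rotation along the axis.  If `a` is prime to `n` this is a free
action of `ℤ/n` on the 3-sphere; the quotient is a lens space with `H_1 = ℤ/n`, in which the class of the
quotient of the knot is `λ` times that of one of the two cores, and `aλ` is the multiple for the other
core (up to sign), `λ` the linking number with the axis.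

`Diagram.IsClosed` and `Diagram.fPoly` (the normalised Kauffman bracket) are in
`Pool.Agent.H891R2.Jones.Diagram`.
-/

set_option autoImplicit false

namespace Pool.Agent.Results.MP_42db45_gt.FreelyPeriodicKnots

open Pool.Agent.H891R2.Jones Pool.Agent.TH561 Pool.Agent.TH561.PK Pool.Agent.TH561.FP

/-- Modulo `q` (modulo `q / 2` if `q` is even) the class `λ` is that of a core: `λ = ± 1`, or modulo `q`
it is that of the other core: `a λ = ± 1`. -/
def CoreClass (q : ℕ) (a lam : ℤ) : Prop :=
  (q : ℤ) ∣ 2 * (lam - 1) ∨ (q : ℤ) ∣ 2 * (lam + 1) ∨ (q : ℤ) ∣ a * lam - 1 ∨ (q : ℤ) ∣ a * lam + 1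

theorem not_dvd_of_lt {q : ℕ} {x : ℤ} (h0 : x ≠ 0) (h : |x| < q) : ¬ (q : ℤ) ∣ x := by
  intro hd
  exact h0 (Int.eq_zero_of_abs_lt_dvd hd h)

/-- Let `D` be a knot diagram which is the closure in the annulus of `w ^ n` followed by `a` full twists,
and let `λ` be its linking number with the axis.

* If `q = p^k ≥ 4` is a power of a prime `p` which divides `n`, and if `f_D` has exactly one coefficient
  which is not divisible by `p`, then modulo `q` the class `λ` is that of one of the two cores.
* In particular this holds for all prime powers `q ≥ 4` dividing `n` if `f_D = 1`.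
* If `f_D = 1` and `λ ≠ ± 1`, then `a λ ≡ ± 1` modulo every prime power `q ≥ 4`, `q > 2 |λ| + 2`,
  dividing `n`.
* Hence `f_D ≠ 1` if `λ ≠ ± 1`, `a λ ≠ ± 1`, and `n` does not divide the least common multiple of the
  numbers up to `max (3, 2 |λ| + 2, |a λ| + 1)`. -/
theorem result (M l n : ℕ) (hl : 0 < l) (hn : 0 < n) (w : Fin l → Elem M) (a : ℤ)
    (dir : Fin (n * l + a.natAbs * (M * (M - 1))) × Fin M → Bool)
    (ho : Oriented (freeWord n w a) dir) (hK : IsKnot (annular (freeWord n w a) dir)) :
    (annular (freeWord n w a) dir).IsClosed ∧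
    (∀ t t', linking dir t = linking dir t') ∧
    (∀ p k : ℕ, p.Prime → 4 ≤ p ^ k → p ^ k ∣ n →
      (∃ x, ¬ (p : ℤ) ∣ (annular (freeWord n w a) dir).fPoly.coeff x ∧
        ∀ y, y ≠ x → (p : ℤ) ∣ (annular (freeWord n w a) dir).fPoly.coeff y) →
      ∀ t, CoreClass (p ^ k) a (linking dir t)) ∧
    ((annular (freeWord n w a) dir).fPoly = 1 →
      (∀ p k : ℕ, p.Prime → 4 ≤ p ^ k → p ^ k ∣ n → ∀ t, CoreClass (p ^ k) a (linking dir t)) ∧
      ∀ t, |linking dir t| ≠ 1 → ∀ p k : ℕ, p.Prime → 4 ≤ p ^ k → p ^ k ∣ n →
        2 * |linking dir t| + 2 < (p : ℤ) ^ k →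
        (p ^ k : ℤ) ∣ a * linking dir t - 1 ∨ (p ^ k : ℤ) ∣ a * linking dir t + 1) ∧
    (∀ t, |linking dir t| ≠ 1 → |a * linking dir t| ≠ 1 →
      ¬ n ∣ (Finset.Icc 1 (max 3 (max (2 * (linking dir t).natAbs + 2)
        ((a * linking dir t).natAbs + 1)))).lcm id →
      (annular (freeWord n w a) dir).fPoly ≠ 1) := by
  have hM : 0 < M := by
    have := (w ⟨0, hl⟩).2.2
    omega
  have h3 : ∀ p k : ℕ, p.Prime → 4 ≤ p ^ k → p ^ k ∣ n →
      (∃ x, ¬ (p : ℤ) ∣ (annular (freeWord n w a) dir).fPoly.coeff x ∧
        ∀ y, y ≠ x → (p : ℤ) ∣ (annular (freeWord n w a) dir).fPoly.coeff y) →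
      ∀ t, CoreClass (p ^ k) a (linking dir t) := by
    rintro p k hp hq hd ⟨x, hx, hx'⟩ t
    have h := free_main_n p k n hp hq hd hn hM w hl a dir ho hK x hx hx' t
    unfold CoreClass
    push_cast
    exact h
  have h4 : (annular (freeWord n w a) dir).fPoly = 1 →
      ∀ p k : ℕ, p.Prime → 4 ≤ p ^ k → p ^ k ∣ n → ∀ t, CoreClass (p ^ k) a (linking dir t) := by
    intro hf p k hp hq hd t
    obtain ⟨h1, h2⟩ := one_coeff p hp _ hf
    exact h3 p k hp hq hd ⟨0, h1, h2⟩ t
  have hlam : ∀ (q : ℕ) (lam : ℤ), |lam| ≠ 1 → 2 * |lam| + 2 < (q : ℤ) →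
      ¬ (q : ℤ) ∣ 2 * (lam - 1) ∧ ¬ (q : ℤ) ∣ 2 * (lam + 1) := by
    intro q lam h1 h2
    have hne1 : lam ≠ 1 := fun h => h1 (by rw [h]; rfl)
    have hne2 : lam ≠ -1 := fun h => h1 (by rw [h]; rfl)
    have hle := le_abs_self lam
    have hge := neg_abs_le lam
    constructor
    · refine not_dvd_of_lt (by omega) ?_
      rw [abs_lt]
      constructor <;> linarith
    · refine not_dvd_of_lt (by omega) ?_
      rw [abs_lt]
      constructor <;> linarith
  refine ⟨annular_closed _ dir ho, linking_const _ dir ho, h3, fun hf => ⟨h4 hf, ?_⟩, ?_⟩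
  · intro t ht p k hp h4' hd hq
    have hq' : 2 * |linking dir t| + 2 < ((p ^ k : ℕ) : ℤ) := by
      push_cast
      exact hq
    obtain ⟨e1, e2⟩ := hlam _ _ ht hq'
    rcases h4 hf p k hp h4' hd t with h | h | h | h
    · exact absurd h e1
    · exact absurd h e2
    · left
      push_cast at h
      exact h
    · right
      push_cast at h
      exact h
  · intro t h1 h2 hnd hf
    obtain ⟨p, k, hp, hq, hd⟩ := exists_prime_pow hnd
    have hq3 : 4 ≤ p ^ k := by
      have := le_max_left 3 (max (2 * (linking dir t).natAbs + 2) ((a * linking dir t).natAbs + 1))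
      omega
    have hqa : 2 * (linking dir t).natAbs + 2 < p ^ k :=
      lt_of_le_of_lt ((le_max_left _ _).trans (le_max_right _ _)) hq
    have hqb : (a * linking dir t).natAbs + 1 < p ^ k :=
      lt_of_le_of_lt ((le_max_right _ _).trans (le_max_right _ _)) hq
    have hqa' : 2 * |linking dir t| + 2 < ((p ^ k : ℕ) : ℤ) := by
      rw [Int.abs_eq_natAbs]
      exact_mod_cast hqa
    have hqb' : |a * linking dir t| + 1 < ((p ^ k : ℕ) : ℤ) := by
      rw [Int.abs_eq_natAbs]
      exact_mod_cast hqb
    obtain ⟨e1, e2⟩ := hlam _ _ h1 hqa'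
    have hne1 : a * linking dir t ≠ 1 := fun h => h2 (by rw [h]; rfl)
    have hne2 : a * linking dir t ≠ -1 := fun h => h2 (by rw [h]; rfl)
    have hle := le_abs_self (a * linking dir t)
    have hge := neg_abs_le (a * linking dir t)
    have e3 : ¬ ((p ^ k : ℕ) : ℤ) ∣ a * linking dir t - 1 := by
      refine not_dvd_of_lt (by omega) ?_
      rw [abs_lt]
      constructor <;> linarith
    have e4 : ¬ ((p ^ k : ℕ) : ℤ) ∣ a * linking dir t + 1 := by
      refine not_dvd_of_lt (by omega) ?_
      rw [abs_lt]
      constructor <;> linarith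
    rcases h4 hf p k hp hq3 hd t with h | h | h | h
    · exact e1 h
    · exact e2 h
    · exact e3 h
    · exact e4 h

end Pool.Agent.Results.MP_42db45_gt.FreelyPeriodicKnots
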