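import Pool.Agent.H891R2.MT.T8

/-!
# Twist numbers whose sums over unions of cycles are equal or far apart

`Pool.Agent.H891R2.MT.Defs` and `Pool.Agent.H891R2.Jones.Diagram` contain the definitions:
`Ribbon k` (a ribbon graph with `k` edges: rotation system on its `2k` darts), `Ribbon.verts`,
`Ribbon.faces`, `Ribbon.comps`, `Ribbon.Planar` (connected and `v - e + f = 2`: a connected plane
graph), `Ribbon.link n` (the unoriented link diagram which is the boundary of the plane surface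
made of one disc for every vertex and, for every edge `e`, a band with `n e ∈ ℤ` half twists, that
is, a row of `|n e|` crossings), `UDiagram`/`Diagram` (unoriented/oriented diagrams with marked
points), `Orients D U` (`D` is the diagram `U` with directions), `Diagram.IsClosed` and
`Diagram.fPoly` (the normalised Kauffman bracket `(-A^{-3})^{w(D)} ⟨D⟩`).
`Ribbon.Bridgeless S` (in `Pool.Agent.H891R2.MT.T8`): no edge of `S` is a bridge of the graph with
edge set `S`, that is, `S` is a union of cycles.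

If all `n e` are `±1`, then `Γ.link n` is the diagram with Tait graph `Γ`; every connected link
diagram is obtained in this way.
-/

set_option autoImplicit false

namespace Pool.Agent.Results.MP_42db45_gt.LacunaryTwists

open Pool.Agent.H891R2.MT Pool.Agent.H891R2.Jones LaurentPolynomial

theorem spanLE_mono {P : Type} [DecidableEq P] {s s' : ℕ} (h : s ≤ s') {U : UDiagram P}
    (hs : SpanLE s U) : SpanLE s' U := by
  obtain ⟨D, h1, h2, lo, h3⟩ := hs
  refine ⟨D, h1, h2, lo, fun j hj => ⟨(h3 j hj).1, (h3 j hj).2.trans ?_⟩⟩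
  have : (s : ℤ) ≤ s' := by exact_mod_cast h
  linarith

theorem core {k : ℕ} (Γ : Ribbon k) (hΓ : Γ.Planar) (hk0 : 0 < k) (hk : Γ.verts ≤ k)
    (n : Fin k → ℤ)
    (hn : ∀ S S' : Finset (Fin k), Γ.Bridgeless S → Γ.Bridgeless S' →
      |∑ e ∈ S, n e - ∑ e ∈ S', n e| ≤ 4 * k + 3 → ∑ e ∈ S, n e = ∑ e ∈ S', n e)
    (D : Diagram (Ribbon.Pt n)) (hD : Orients D (Γ.link n)) (hc : D.IsClosed) :
    D.fPoly ≠ 1 ∧
    (∀ c : ℕ, 1 ≤ c → c + Γ.verts ≤ k + 1 → D.fPoly ≠ (-T 2 - T (-2)) ^ (c - 1)) ∧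
    ∀ lo : ℤ, ∃ j : ℤ, D.fPoly.coeff j ≠ 0 ∧ (j < lo ∨ lo + 4 * ((k : ℤ) - Γ.verts) < j) := by
  have key := lacunary Γ hΓ hk0 hk n hn
  have h2 : ∀ c : ℕ, 1 ≤ c → c + Γ.verts ≤ k + 1 → D.fPoly ≠ (-T 2 - T (-2)) ^ (c - 1) := by
    intro c hc1 hc2 h
    exact key (spanLE_mono (s := c - 1) (by omega) (span_of_unlink c _ ⟨D, hD, hc, h⟩))
  refine ⟨?_, h2, fun lo => ?_⟩
  · have := h2 1 le_rfl (by omega)
    simpa using this
  · by_contra hcon
    push Not at hcon
    refine key ⟨D, hD, hc, lo, fun j hj => ?_⟩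
    have h3 := hcon j hj
    have h4 : ((k - Γ.verts : ℕ) : ℤ) = k - Γ.verts := by rw [Nat.cast_sub hk]
    rw [h4]
    exact h3

/-- Let `Γ` be a connected plane graph with `k ≥ 1` edges which is not a tree (`verts ≤ k`), and
let `D(n) = Γ.link n` be the link diagram with `|n e|` crossings on the edge `e`, `n ∈ ℤ^k`, with
any directions.

(1) Suppose that any two sums `n(S) = ∑ e ∈ S, n e` over unions of cycles `S` of `Γ` are equal or
differ by at least `4 k + 4`.  Then the normalised Kauffman bracket of `D(n)` is not `1`, nor the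
one of the unlink with `c` components for any `c ≤ k - verts + 1`, and it is not supported in any
interval of length `4 (k - verts)`: the span of the Jones polynomial in `t = A^{-4}` is larger than
`k - verts`.

(2) This holds whenever all `n e` are multiples of some integer `M ≥ 4 k + 4`. -/
theorem result (k : ℕ) (hk0 : 0 < k) (Γ : Ribbon k) (hΓ : Γ.Planar) (hk : Γ.verts ≤ k) :
    (∀ n : Fin k → ℤ,
      (∀ S S' : Finset (Fin k), Γ.Bridgeless S → Γ.Bridgeless S' →
        ∑ e ∈ S, n e = ∑ e ∈ S', n e ∨ 4 * k + 4 ≤ |∑ e ∈ S, n e - ∑ e ∈ S', n e|) →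
      ∀ D : Diagram (Ribbon.Pt n), Orients D (Γ.link n) → D.IsClosed →
        D.fPoly ≠ 1 ∧
        (∀ c : ℕ, 1 ≤ c → c + Γ.verts ≤ k + 1 → D.fPoly ≠ (-T 2 - T (-2)) ^ (c - 1)) ∧
        ∀ lo : ℤ, ∃ j : ℤ, D.fPoly.coeff j ≠ 0 ∧ (j < lo ∨ lo + 4 * ((k : ℤ) - Γ.verts) < j)) ∧
    ∀ (M : ℤ) (m : Fin k → ℤ), 4 * k + 4 ≤ M →
      ∀ D : Diagram (Ribbon.Pt (fun e => M * m e)), Orients D (Γ.link (fun e => M * m e)) →
        D.IsClosed →
        D.fPoly ≠ 1 ∧
        (∀ c : ℕ, 1 ≤ c → c + Γ.verts ≤ k + 1 → D.fPoly ≠ (-T 2 - T (-2)) ^ (c - 1)) ∧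
        ∀ lo : ℤ, ∃ j : ℤ, D.fPoly.coeff j ≠ 0 ∧
          (j < lo ∨ lo + 4 * ((k : ℤ) - Γ.verts) < j) := by
  refine ⟨fun n hn D hD hc => core Γ hΓ hk0 hk n (fun S S' hS hS' h => ?_) D hD hc,
    fun M m hM D hD hc => core Γ hΓ hk0 hk _ (fun S S' hS hS' h => ?_) D hD hc⟩
  · rcases hn S S' hS hS' with h1 | h1
    · exact h1
    · exfalso; linarith
  · rw [← Finset.mul_sum, ← Finset.mul_sum] at h ⊢
    rw [← mul_sub, abs_mul] at h
    by_contra hne
    have h1 : 1 ≤ |∑ e ∈ S, m e - ∑ e ∈ S', m e| := by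
      apply Int.one_le_abs
      intro h2
      apply hne
      rw [sub_eq_zero.1 h2]
    have h2 : M ≤ |M| := le_abs_self M
    have h3 : |M| * 1 ≤ |M| * |∑ e ∈ S, m e - ∑ e ∈ S', m e| :=
      mul_le_mul_of_nonneg_left h1 (abs_nonneg M)
    linarith

end Pool.Agent.Results.MP_42db45_gt.LacunaryTwists
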