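import Pool.Agent.Y463.SK.Gen

/-!
# Jones polynomials of link diagrams with powers of arbitrary braids

Diagrams (starting library `Pool.Agent.H891R2.Jones.Diagram`): `Diagram P` (oriented link diagrams with
marked points `P`), `Diagram.fPoly` (the normalised bracket `(-A^{-3})^{w(D)} ⟨D⟩ ∈ ℤ[A, A⁻¹]`, `A = T 1`,
i.e. the Jones polynomial `V(t)` with `t = A^{-4}`), `Diagram.IsClosed` (the pieces of the diagram fit
together to closed oriented curves), `Outer m` (the part of an oriented link diagram outside a box through
which `m` strands run, each of them in one of the two directions `O.up`), `Outer.close` (fills the box with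
`m` vertical strands without crossings).  Starting library `Pool.Agent.W639.RB.Defs`: `Letter m` (the letters
`σ_i^{±1}` of the braid group on `m` strands).

Definitions of `Pool.Agent.Y463.SK.Defs`, for words `w` (lists of letters): `powW w n` (the power `w^n`,
`n ∈ ℤ`), `permW w` (the permutation of the strands), `IsPure w` (`permW w = 1`: `w` is a pure braid),
`dia O w` (the diagram obtained by drawing `w` in the box of `O` and filling the rest of the box with
vertical strands), `multiW w v n = w_1^{n_1} v_1 w_2^{n_2} v_2 ⋯ w_k^{n_k} v_k`.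

The proof (starting library `Pool.Agent.Y463.SK`): modulo `A + 1` the pure braids act trivially in the
Temperley-Lieb algebra over `ℤ[A, A⁻¹]`, and an `(A+1)`-adic argument shows that no power of a pure braid
fixes a subspace which the braid itself does not fix.
-/

set_option autoImplicit false
set_option maxHeartbeats 1000000

namespace Pool.Agent.Results.MP_42db45_gt.PowersOfBraids

open Finset LaurentPolynomial Pool.Agent.H891R2.Jones Pool.Agent.W639.RB Pool.Agent.Y463.SK

/-- the integers `n` for which the diagram with the braid `w^n v` in the box has the normalised bracket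
`F` -/
def Hits {m : ℕ} (O : Outer m) (w v : List (Letter m)) (F : ℤ[T;T⁻¹]) : Set ℤ :=
  {n | (dia O (powW w n ++ v)).fPoly = F}

theorem one_family {m : ℕ} (hm : 0 < m) (O : Outer m) (w v : List (Letter m)) (r : ℕ)
    (hr : IsPure (powW w r)) (s : ℤ) (F : ℤ[T;T⁻¹]) :
    (∀ q : ℤ, (r : ℤ) * q + s ∈ Hits O w v F) ∨
      {q : ℤ | (r : ℤ) * q + s ∈ Hits O w v F}.Finite ∧
        {q : ℤ | (r : ℤ) * q + s ∈ Hits O w v F}.ncard ≤ m.factorial := by
  classical
  have hmul : ∀ n : Fin 1 → ℤ, multiW (fun _ : Fin 1 => w) (fun _ : Fin 1 => v) n =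
      powW w (n 0) ++ v := by
    intro n
    simp [multiW]
  rcases multi_general hm O (fun _ : Fin 1 => w) (fun _ : Fin 1 => v) (fun _ => r)
    (fun _ => hr) (fun _ => s) F with h | h
  · left
    intro q
    have h1 := h (fun _ => q)
    rw [hmul] at h1
    exact h1
  · right
    have key : ∀ Z : Finset ℤ, (∀ z ∈ Z, (r : ℤ) * z + s ∈ Hits O w v F) → Z.card ≤ m.factorial := by
      intro Z hZ
      have h1 := h (fun _ => Z)
      have h2 : ∑ i : Fin 1, ∏ j ∈ univ.erase i, Z.card = 1 := by simp
      rw [h2, mul_one] at h1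
      refine le_trans ?_ h1
      let g : ℤ → (Fin 1 → ℤ) := fun z _ => z
      have hg : Function.Injective g := fun a b hab => congrFun hab 0
      have hsub : Z.map ⟨g, hg⟩ ⊆ (Fintype.piFinset (fun _ : Fin 1 => Z)).filter
          (fun q => (dia O (multiW (fun _ : Fin 1 => w) (fun _ : Fin 1 => v)
            (fun i => (r : ℤ) * q i + s))).fPoly = F) := by
        intro f hf
        rw [Finset.mem_map] at hf
        obtain ⟨z, hz, rfl⟩ := hf
        rw [Finset.mem_filter, Fintype.mem_piFinset]
        refine ⟨fun _ => hz, ?_⟩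
        rw [hmul]
        exact hZ z hz
      have h4 := Finset.card_le_card hsub
      rw [Finset.card_map] at h4
      exact h4
    have hfin : {q : ℤ | (r : ℤ) * q + s ∈ Hits O w v F}.Finite := by
      by_contra hinf
      obtain ⟨Z, hZ, hc⟩ := Set.Infinite.exists_subset_card_eq hinf (m.factorial + 1)
      have := key Z (fun z hz => hZ hz)
      omega
    refine ⟨hfin, ?_⟩
    rw [Set.ncard_eq_toFinset_card _ hfin]
    exact key _ (fun z hz => (hfin.mem_toFinset).1 hz)

open Classical in
/-- **Powers of arbitrary braids in a link diagram.**  Let `O` be the part of an oriented link diagram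
outside a box through which `m ≥ 1` strands run (in arbitrary directions), and let `F` be any Laurent
polynomial, for example `1`, the normalised bracket of the unknot.

* Let `w_1, …, w_k` and `v_1, …, v_k` be arbitrary braid words on `m` strands, let `r_i ≥ 0` be such that
  `w_i^{r_i}` is pure (for instance `r_i = m!`), let `s ∈ ℤ^k`, and for `q ∈ ℤ^k` let `K(q)` be the diagram
  obtained by drawing the braid `w_1^{n_1} v_1 w_2^{n_2} v_2 ⋯ w_k^{n_k} v_k`, `n_i = r_i q_i + s_i`, in the
  box.  If `O` closes to a closed diagram and the permutation of this braid for `q = 0` preserves the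
  directions of the strands, then all `K(q)` are closed oriented link diagrams.  Either all the `K(q)`,
  `q ∈ ℤ^k`, have the normalised bracket `F`, or for all finite sets `A_1, …, A_k` of integers at most
  `m! ∑_i ∏_{j ≠ i} |A_j|` of the `∏_j |A_j|` diagrams `K(q)` with `q ∈ A_1 × ⋯ × A_k` have it.
* Let `w` and `v` be braid words on `m` strands and `r ≥ 1` such that `w^r` is pure (for instance `r = m!`).
  The set of the integers `n` for which the diagram with the braid `w^n v` in the box has the normalised
  bracket `F` is the union of some full residue classes modulo `r` and of a finite set with at most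
  `r m!` elements. -/
theorem result (m : ℕ) (hm : 0 < m) (O : Outer m) (F : ℤ[T;T⁻¹]) :
    (∀ (k : ℕ) (w v : Fin k → List (Letter m)) (r : Fin k → ℕ) (s : Fin k → ℤ),
      (∀ i, IsPure (powW (w i) (r i))) →
      (O.close.IsClosed → (∀ j, O.up (permW (multiW w v s) j) = O.up j) → ∀ q : Fin k → ℤ,
        (dia O (multiW w v (fun i => r i * q i + s i))).IsClosed) ∧
      ((∀ q : Fin k → ℤ, (dia O (multiW w v (fun i => r i * q i + s i))).fPoly = F) ∨
        ∀ A : Fin k → Finset ℤ, ((Fintype.piFinset A).filter
          (fun q => (dia O (multiW w v (fun i => r i * q i + s i))).fPoly = F)).card ≤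
            m.factorial * ∑ i, ∏ j ∈ univ.erase i, (A j).card)) ∧
    (∀ (w v : List (Letter m)) (r : ℕ), 0 < r → IsPure (powW w r) →
      ∃ S : Finset ℤ, S ⊆ Finset.Ico 0 (r : ℤ) ∧
        (∀ n : ℤ, n % r ∈ S → n ∈ Hits O w v F) ∧
        {n : ℤ | n ∈ Hits O w v F ∧ n % r ∉ S}.Finite ∧
        {n : ℤ | n ∈ Hits O w v F ∧ n % r ∉ S}.ncard ≤ r * m.factorial) ∧
    (∀ w : List (Letter m), IsPure (powW w m.factorial)) := by
  refine ⟨?_, ?_, ?_⟩
  · intro k w v r s hr
    exact ⟨fun hO hv q => multi_general_closed O w v r hr s hO hv q,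
      multi_general hm O w v r hr s F⟩
  · intro w v r hr0 hr
    have hr0' : (0 : ℤ) < r := by exact_mod_cast hr0
    set S : Finset ℤ := (Finset.Ico 0 (r : ℤ)).filter
      (fun s => ∀ q : ℤ, (r : ℤ) * q + s ∈ Hits O w v F) with hS
    have hdecomp : ∀ n : ℤ, (r : ℤ) * (n / r) + n % r = n := fun n => Int.mul_ediv_add_emod n r
    have hmodmem : ∀ n : ℤ, n % r ∈ Finset.Ico 0 (r : ℤ) := fun n =>
      Finset.mem_Ico.2 ⟨Int.emod_nonneg _ hr0'.ne', Int.emod_lt_of_pos _ hr0'⟩
    have hsub : {n : ℤ | n ∈ Hits O w v F ∧ n % r ∉ S} ⊆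
        ⋃ s ∈ (Finset.Ico 0 (r : ℤ)) \ S,
          (fun q : ℤ => (r : ℤ) * q + s) '' {q : ℤ | (r : ℤ) * q + s ∈ Hits O w v F} := by
      rintro n ⟨h1, h2⟩
      rw [Set.mem_iUnion₂]
      refine ⟨n % r, Finset.mem_sdiff.2 ⟨hmodmem n, h2⟩, n / r, ?_, hdecomp n⟩
      show (r : ℤ) * (n / r) + n % r ∈ Hits O w v F
      rw [hdecomp]
      exact h1
    have hpiece : ∀ s ∈ (Finset.Ico 0 (r : ℤ)) \ S,
        {q : ℤ | (r : ℤ) * q + s ∈ Hits O w v F}.Finite ∧
        {q : ℤ | (r : ℤ) * q + s ∈ Hits O w v F}.ncard ≤ m.factorial := by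
      intro s hs
      rw [Finset.mem_sdiff, hS, Finset.mem_filter] at hs
      rcases one_family hm O w v r hr s F with h | h
      · exact absurd ⟨hs.1, h⟩ hs.2
      · exact h
    have hfinU : (⋃ s ∈ (Finset.Ico 0 (r : ℤ)) \ S,
          (fun q : ℤ => (r : ℤ) * q + s) '' {q : ℤ | (r : ℤ) * q + s ∈ Hits O w v F}).Finite := by
      refine Set.Finite.biUnion (Finset.finite_toSet _) ?_
      intro s hs
      exact (hpiece s hs).1.image _
    refine ⟨S, Finset.filter_subset _ _, ?_, hfinU.subset hsub, ?_⟩
    · intro n hn
      rw [hS, Finset.mem_filter] at hn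
      have := hn.2 (n / r)
      rwa [hdecomp] at this
    · refine (Set.ncard_le_ncard hsub hfinU).trans ?_
      refine (Finset.set_ncard_biUnion_le _ _).trans ?_
      have h1 : ∀ s ∈ (Finset.Ico 0 (r : ℤ)) \ S,
          ((fun q : ℤ => (r : ℤ) * q + s) '' {q : ℤ | (r : ℤ) * q + s ∈ Hits O w v F}).ncard ≤
            m.factorial := fun s hs =>
        (Set.ncard_image_le (hpiece s hs).1).trans (hpiece s hs).2
      refine (Finset.sum_le_card_nsmul _ _ _ h1).trans ?_
      rw [smul_eq_mul]
      refine Nat.mul_le_mul_right _ ?_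
      refine (Finset.card_le_card Finset.sdiff_subset).trans ?_
      rw [Int.card_Ico]
      omega
  · intro w
    have hpow : ∀ n : ℕ, permW (powW w (n : ℤ)) = permW w ^ n := by
      intro n
      induction n with
      | zero => simp [powW, permW]
      | succ n ih =>
        have h1 : powW w ((n + 1 : ℕ) : ℤ) = w ++ powW w (n : ℤ) := by
          show (List.replicate (n + 1) w).flatten = w ++ (List.replicate n w).flatten
          rw [List.replicate_succ, List.flatten_cons]
        rw [h1, pow_succ', ← ih]
        unfold permW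
        rw [List.map_append, List.prod_append]
    unfold IsPure
    rw [hpow]
    have h2 : Fintype.card (Equiv.Perm (Fin m)) = m.factorial := by
      rw [Fintype.card_perm, Fintype.card_fin]
    rw [← h2]
    exact pow_card_eq_one

end Pool.Agent.Results.MP_42db45_gt.PowersOfBraids
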