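import Pool.Agent.X130.SD.G

/-!
# Link diagrams with one strongly dominated state

`Pool.Agent.H891R2.DS.Defs`, `Pool.Agent.H891R2.DS.Final`, `Pool.Agent.H891R2.MT.Defs` and
`Pool.Agent.H891R2.Jones.Diagram` contain the definitions:

* `Ribbon k`: ribbon graphs with `k` edges; `Ribbon.Planar`: connected and planar;
  `Γ.link (sg R)`: the link diagram with Tait graph `Γ` and one crossing at every edge, of the kind
  `-1` for the edges in `R` and `1` for the others (every connected link diagram with at least one
  crossing is of this form); `Orients D U`: `D` is the unoriented diagram `U` with directions;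
  `D.IsClosed`: the directions fit together to closed oriented curves; `D.writhe`: the writhe;
  `D.fPoly`: the normalised Kauffman bracket;
* a state is a set `S` of edges (the bands of `Γ` which are kept in the smoothing); `Asm R S`: the
  crossings which have the `A`-smoothing in the state `S`; `stateGraph Γ S`: the state graph; its
  vertices are the circles of `S` (their number is `verts`), and every crossing is an edge between the
  circles which it touches;
* `EvenSet G X`: `X` is an even subgraph of `G` (a union of edge-disjoint cycles);
  `Nugatory Γ e`: the crossing `e` is nugatory (a bridge of the Tait graph or of its dual).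

`Pool.Agent.TH561.PK.IsKnot D`: all marked points of `D` are on one curve.  `Pool.Agent.X130.SD`:

* `SDom G M`: every cycle (nonempty even subgraph) `X` of `G` has at least two more edges outside `M`
  than in `M`, and at least three more if it contains an edge of `M`;
* `redEdges G`: the number of pairs of vertices of `G` which are joined by an edge, that is, the number
  of edges of the reduced graph of `G`.

Proof: the state sum is ordered by the set `F` of the changed crossings outside `M`.  By planarity and the
domination inequality (applied to the regions of the plane cut out by the crossings in cycles) the set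
`F` contributes to the first two coefficients only if it is empty or consists of parallel edges of the
state graph; a class of parallel edges is planar also if the state is not homogeneous.  If the second
coefficient is `0`, then the reduced state graph is a tree, hence it has a two-colouring, which shows for
a knot that the state is the oriented (Seifert) state; this gives the writhe, and the lowest exponent is
twice the number of independent cycles of the state graph.
-/

set_option autoImplicit false

namespace Pool.Agent.Results.MP_42db45_gt.SemiDominatedStates

open Finset Pool.Agent.H891R2.Jones Pool.Agent.H891R2.MT Pool.Agent.H891R2.DS Pool.Agent.TH561.PK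
open Pool.Agent.X130.SD

/-- Let `D` be a connected link diagram with `k > 0` crossings and writhe `w`, and let `S` be a state with
`v` circles whose reduced state graph has `e'` edges.

* Let `m` be the number of the `A`-smoothings of `S`. Suppose that every cycle of the state graph has at
  least two more `B`-smoothed than `A`-smoothed crossings, and at least three more if it contains an
  `A`-smoothed crossing. Then the lowest exponent of `A` in the normalised bracket `f` of `D` is
  `6 m - k - 2 v + 2 - 3 w`, its coefficient is `± 1`, and the absolute value of the coefficient at the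
  exponent larger by `4` is `e' + 1 - v`, the number of independent cycles of the reduced state graph. If
  `D` is a knot diagram and the reduced state graph is a tree, then the lowest exponent is
  `2 (k + 1 - v)`; and if `D` is a knot diagram with a crossing which is not nugatory, then `f ≠ 1`.
* The same holds with `A` and `B` exchanged, for the highest exponent.

(For `m = 0` the state is the all-`B` state and the condition says that `D` is `B`-adequate.) -/
theorem result {k : ℕ} (Γ : Ribbon k) (hΓ : Γ.Planar) (hk : 0 < k) (R S : Finset (Fin k))
    (D : Diagram (Ribbon.Pt (sg R))) (hD : Orients D (Γ.link (sg R))) :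
    (SDom (stateGraph Γ S) (Asm R S) →
      (∀ j, D.fPoly.coeff j ≠ 0 →
        6 * (Asm R S).card - k - 2 * (stateGraph Γ S).verts + 2 - 3 * D.writhe ≤ j) ∧
      |D.fPoly.coeff (6 * (Asm R S).card - k - 2 * (stateGraph Γ S).verts + 2 - 3 * D.writhe)| = 1 ∧
      |D.fPoly.coeff
          (6 * (Asm R S).card - k - 2 * (stateGraph Γ S).verts + 2 - 3 * D.writhe + 4)| =
        redEdges (stateGraph Γ S) + 1 - (stateGraph Γ S).verts ∧
      (D.IsClosed → IsKnot D →
        (redEdges (stateGraph Γ S) + 1 = (stateGraph Γ S).verts →
          6 * ((Asm R S).card : ℤ) - k - 2 * (stateGraph Γ S).verts + 2 - 3 * D.writhe =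
            2 * (k + 1 - (stateGraph Γ S).verts)) ∧
        ((∃ e, ¬ Nugatory Γ e) → D.fPoly ≠ 1))) ∧
    (SDom (stateGraph Γ S) (Asm R S)ᶜ →
      (∀ j, D.fPoly.coeff j ≠ 0 →
        j ≤ k + 2 * (stateGraph Γ S).verts - 2 - 6 * ((Asm R S)ᶜ).card - 3 * D.writhe) ∧
      |D.fPoly.coeff (k + 2 * (stateGraph Γ S).verts - 2 - 6 * ((Asm R S)ᶜ).card -
          3 * D.writhe)| = 1 ∧
      |D.fPoly.coeff (k + 2 * (stateGraph Γ S).verts - 2 - 6 * ((Asm R S)ᶜ).card -
          3 * D.writhe - 4)| = redEdges (stateGraph Γ S) + 1 - (stateGraph Γ S).verts ∧
      (D.IsClosed → IsKnot D →
        (redEdges (stateGraph Γ S) + 1 = (stateGraph Γ S).verts →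
          k + 2 * (stateGraph Γ S).verts - 2 - 6 * (((Asm R S)ᶜ).card : ℤ) - 3 * D.writhe =
            -(2 * (k + 1 - (stateGraph Γ S).verts))) ∧
        ((∃ e, ¬ Nugatory Γ e) → D.fPoly ≠ 1))) := by
  refine ⟨fun h => ?_, fun h => ?_⟩
  · obtain ⟨h1, h2, h3⟩ := low Γ hΓ hk R S h D hD
    exact ⟨h1, h2, h3, fun hcl hK => nontrivial_low Γ hΓ hk R S h D hD hcl hK⟩
  · obtain ⟨h1, h2, h3⟩ := high Γ hΓ hk R S h D hD
    exact ⟨h1, h2, h3, fun hcl hK => nontrivial_high Γ hΓ hk R S h D hD hcl hK⟩

end Pool.Agent.Results.MP_42db45_gt.SemiDominatedStates
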